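import Mathlib
import Pool.Agent.R500.MH.Few
import Pool.Agent.R500.MH.Final
import Pool.Agent.R500.MH.Special

set_option autoImplicit false

/-!
# Generalized Wagstaff numbers: amplitudes with finitely many prime values in every base

For an integer `b ≥ 2`, real `β > 0` and a prime `p` let `W b β p` be the `p`-rough part (the
product, with multiplicity, of the prime factors larger than `p`) of the integer nearest to
`β b ^ p`.  For `β = 1 / (b + 1)` this is the generalized Wagstaff number `(b ^ p + 1) / (b + 1)`,
for every odd prime `p` which does not divide `b + 1`.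
We prove that for every base `b` every interval contains uncountably many `β` for which `W b β p` is
prime for only finitely many primes `p`.  The proof uses large gaps between primes.
-/

namespace Pool.Agent.Results.MP_ce8d0c_nt.FinitelyManyExponents

open Filter Topology Set

/-- The product, with multiplicity, of the prime factors of `m` that are larger than `p`. -/
def roughPart (p m : ℕ) : ℕ := (m.primeFactorsList.filter (fun r => p < r)).prod

/-- The `p`-rough part of the integer `⌊β b ^ p + 1 / 2⌋` nearest to `β b ^ p`. -/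
noncomputable def W (b : ℕ) (β : ℝ) (p : ℕ) : ℕ := roughPart p ⌊β * (b : ℝ) ^ p + 1 / 2⌋₊

lemma W_eq (b : ℕ) (β : ℝ) (p : ℕ) :
    W b β p = Pool.Agent.R500.MH.W (fun y => ⌊y + 1 / 2⌋₊) b β p := rfl

/-- **Every interval contains uncountably many amplitudes with finitely many prime values.** -/
theorem result :
    (∀ b : ℕ, 2 ≤ b → ∀ p : ℕ, p.Prime → p ≠ 2 → ¬ p ∣ b + 1 →
      W b (1 / ((b : ℝ) + 1)) p * (b + 1) = b ^ p + 1) ∧
    (∀ b : ℕ, 2 ≤ b → ∀ u v : ℝ, 0 ≤ u → u < v →
      ¬ {β : ℝ | β ∈ Set.Ioo u v ∧ {p : ℕ | p.Prime ∧ (W b β p).Prime}.Finite}.Countable) := by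
  refine ⟨fun b hb p hp hp2 hpd => Pool.Agent.R500.MH.wagstaff hb hp hp2 hpd,
    fun b hb u v hu huv => ?_⟩
  have h := Pool.Agent.R500.MH.few Pool.Agent.R500.MH.rnd_near hb hu huv
  simp only [← W_eq] at h
  exact h

end Pool.Agent.Results.MP_ce8d0c_nt.FinitelyManyExponents
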