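import Mathlib
import Pool.Agent.R500.MH.Generic
import Pool.Agent.R500.MH.Final
import Pool.Agent.R500.MH.Special

set_option autoImplicit false

/-!
# Generalized Wagstaff numbers: the generic amplitude in every base

For an integer `b ≥ 2`, real `β > 0` and a prime `p` let `W b β p` be the `p`-rough part (the
product, with multiplicity, of the prime factors larger than `p`) of the integer nearest to
`β b ^ p`.  For `β = 1 / (b + 1)` this is the generalized Wagstaff number `(b ^ p + 1) / (b + 1)`,
for every odd prime `p` which does not divide `b + 1`.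
Let `M b β n` be the number of primes `p ≤ n` with `W b β p` prime.  We prove that for every base
`b` and comeagre many `β` the counting function is smaller than `f n` for infinitely many `n`, for
every function `f` tending to infinity; for infinitely many `n` all the primes in `(2 log n, n]` are
counted; and every `c ∈ [0, ∞)` is a limit point of `M b β n / log n`, in contrast to the law
`(e ^ γ / log b) log n` which is expected for almost every `β`.
-/

namespace Pool.Agent.Results.MP_ce8d0c_nt.GenericAmplitude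

open Filter Topology Set

/-- The product, with multiplicity, of the prime factors of `m` that are larger than `p`. -/
def roughPart (p m : ℕ) : ℕ := (m.primeFactorsList.filter (fun r => p < r)).prod

/-- The `p`-rough part of the integer `⌊β b ^ p + 1 / 2⌋` nearest to `β b ^ p`. -/
noncomputable def W (b : ℕ) (β : ℝ) (p : ℕ) : ℕ := roughPart p ⌊β * (b : ℝ) ^ p + 1 / 2⌋₊

/-- The number of primes `p ≤ n` for which `W b β p` is prime. -/
noncomputable def M (b : ℕ) (β : ℝ) (n : ℕ) : ℕ :=
  ((Finset.range (n + 1)).filter (fun p => p.Prime ∧ (W b β p).Prime)).card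

lemma W_eq (b : ℕ) (β : ℝ) (p : ℕ) :
    W b β p = Pool.Agent.R500.MH.W (fun y => ⌊y + 1 / 2⌋₊) b β p := rfl

lemma M_eq (b : ℕ) (β : ℝ) (n : ℕ) :
    M b β n = Pool.Agent.R500.MH.M (fun y => ⌊y + 1 / 2⌋₊) b β n := rfl

/-- **The law fails for the topologically generic amplitude.** -/
theorem result :
    (∀ b : ℕ, 2 ≤ b → ∀ p : ℕ, p.Prime → p ≠ 2 → ¬ p ∣ b + 1 →
      W b (1 / ((b : ℝ) + 1)) p * (b + 1) = b ^ p + 1) ∧
    (∀ b : ℕ, 2 ≤ b → ∀ f : ℕ → ℝ, Tendsto f atTop atTop → ∀ᶠ β : ℝ in residual ℝ, 0 < β →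
      ∃ᶠ n : ℕ in atTop, (M b β n : ℝ) < f n) ∧
    (∀ b : ℕ, 2 ≤ b → ∀ᶠ β : ℝ in residual ℝ, 0 < β →
      (∃ᶠ n : ℕ in atTop, ∀ p : ℕ, p.Prime → 2 * Real.log n < p → p ≤ n → (W b β p).Prime) ∧
      (∀ ε : ℝ, 0 < ε → ∃ᶠ n : ℕ in atTop, (1 - ε) * Nat.primeCounting n < M b β n) ∧
      (∀ c : ℝ, 0 ≤ c → MapClusterPt c atTop (fun n : ℕ => (M b β n : ℝ) / Real.log n))) := by
  refine ⟨fun b hb p hp hp2 hpd => Pool.Agent.R500.MH.wagstaff hb hp hp2 hpd, fun b hb => ?_,
    fun b hb => ?_⟩
  · have h := Pool.Agent.R500.MH.generic_law Pool.Agent.R500.MH.rnd_near hb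
    simp only [← M_eq, ← W_eq] at h
    exact h.1
  · have h := Pool.Agent.R500.MH.generic_law Pool.Agent.R500.MH.rnd_near hb
    simp only [← M_eq, ← W_eq] at h
    exact h.2

end Pool.Agent.Results.MP_ce8d0c_nt.GenericAmplitude
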