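import Mathlib
import Pool.Agent.R500.MH.Final
import Pool.Agent.R500.MH.Special

set_option autoImplicit false

/-!
# Generalized Wagstaff numbers: amplitudes with a positive proportion of prime values in every base

For an integer `b ≥ 2`, real `β > 0` and a prime `p` let `W b β p` be the `p`-rough part (the
product, with multiplicity, of the prime factors larger than `p`) of the integer nearest to
`β b ^ p`.  For `β = 1 / (b + 1)` this is the generalized Wagstaff number `(b ^ p + 1) / (b + 1)`,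
for every odd prime `p` which does not divide `b + 1`.
Let `M b β n` be the number of primes `p ≤ n` with `W b β p` prime.  We prove that for every base
`b`, for `0 < s < t < 1` and a suitable `c > 0`, in every interval the set of the `β` with
`M b β n ≥ c π(n)` for all large `n` and `limsup M b β n / π(n) ≥ 1 - t` has Hausdorff dimension at
least `s`; in particular the set of the `β` for which a positive proportion of all primes is counted,
at every large scale, has Hausdorff dimension one in every interval.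
-/

namespace Pool.Agent.Results.MP_ce8d0c_nt.PositiveDensity

open Filter Topology Set

/-- The product, with multiplicity, of the prime factors of `m` that are larger than `p`. -/
def roughPart (p m : ℕ) : ℕ := (m.primeFactorsList.filter (fun r => p < r)).prod

/-- The `p`-rough part of the integer `⌊β b ^ p + 1 / 2⌋` nearest to `β b ^ p`. -/
noncomputable def W (b : ℕ) (β : ℝ) (p : ℕ) : ℕ := roughPart p ⌊β * (b : ℝ) ^ p + 1 / 2⌋₊

/-- The number of primes `p ≤ n` for which `W b β p` is prime. -/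
noncomputable def M (b : ℕ) (β : ℝ) (n : ℕ) : ℕ :=
  ((Finset.range (n + 1)).filter (fun p => p.Prime ∧ (W b β p).Prime)).card

lemma W_eq (b : ℕ) (β : ℝ) (p : ℕ) :
    W b β p = Pool.Agent.R500.MH.W (fun y => ⌊y + 1 / 2⌋₊) b β p := rfl

lemma M_eq (b : ℕ) (β : ℝ) (n : ℕ) :
    M b β n = Pool.Agent.R500.MH.M (fun y => ⌊y + 1 / 2⌋₊) b β n := rfl

/-- **A positive proportion of all primes: the Hausdorff dimension.** -/
theorem result :
    (∀ b : ℕ, 2 ≤ b → ∀ p : ℕ, p.Prime → p ≠ 2 → ¬ p ∣ b + 1 →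
      W b (1 / ((b : ℝ) + 1)) p * (b + 1) = b ^ p + 1) ∧
    (∀ b : ℕ, 2 ≤ b → ∀ s t : ℝ, 0 < s → s < t → t < 1 → ∃ c : ℝ, 0 < c ∧
      ∀ u v : ℝ, 0 ≤ u → u < v →
      ENNReal.ofReal s ≤ dimH {β : ℝ | β ∈ Set.Ioo u v ∧
        (∀ᶠ n : ℕ in atTop, c * Nat.primeCounting n ≤ M b β n) ∧
        (∀ ε : ℝ, 0 < ε → ∃ᶠ n : ℕ in atTop, (1 - t - ε) * Nat.primeCounting n < M b β n)}) ∧
    (∀ b : ℕ, 2 ≤ b → ∀ t : ℝ, 0 < t → t ≤ 1 → ∀ u v : ℝ, 0 ≤ u → u < v →
      ENNReal.ofReal t ≤ dimH {β : ℝ | β ∈ Set.Ioo u v ∧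
        (∃ c : ℝ, 0 < c ∧ ∀ᶠ n : ℕ in atTop, c * Nat.primeCounting n ≤ M b β n) ∧
        (∀ ε : ℝ, 0 < ε → ∃ᶠ n : ℕ in atTop, (1 - t - ε) * Nat.primeCounting n < M b β n)}) := by
  refine ⟨fun b hb p hp hp2 hpd => Pool.Agent.R500.MH.wagstaff hb hp hp2 hpd,
    fun b hb s t hs hst ht => ?_, fun b hb t _ ht1 u v hu huv => ?_⟩
  · have h := Pool.Agent.R500.MH.dim_density Pool.Agent.R500.MH.rnd_near hb hs hst ht
    simp only [← M_eq] at h
    exact h
  · have h := Pool.Agent.R500.MH.dim_all Pool.Agent.R500.MH.rnd_near hb ht1 hu huv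
    simp only [← M_eq] at h
    exact h

end Pool.Agent.Results.MP_ce8d0c_nt.PositiveDensity
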