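import Mathlib
import Pool.Agent.R303.BA.Rat

set_option autoImplicit false

/-!
# Generalized Wagstaff numbers: the law for random profinite integers in all bases simultaneously

A profinite integer `z` is a compatible system of residues `z N` modulo all integers `N ≥ 1`.  For a
base `b`, integers `u, v, m` with `u`, `v` prime to `b` and a prime `p` let `W b u v m z p` be the
`p`-rough part (the product, with multiplicity, of the prime factors larger than `p`) of the residue
in `[0, b ^ p)` of `(u z + m) / v` modulo `b ^ p`.  For `z = 1` and the multiplier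
`u / v = 1 / (b + 1)` (`m = 0`) this is the generalized Wagstaff number `(b ^ p + 1) / (b + 1)`, for
every odd prime `p` which does not divide `b + 1`.

Let `z` be random, with the uniform distribution (Haar measure).  Almost surely, simultaneously for
all bases `b ≥ 2` and all `u, v, m` (`u`, `v` and `u z + m` prime to `b`) the number of primes
`p ≤ n` with `W b u v m z p` prime is
`(e ^ γ / log b) log n + O((log n) ^ (1/2) (log log n) ^ (5/2))`, and for every set `S` the same holds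
along `S`, with the sum `V S n` of `log p / p` over the primes `p ≤ n` in `S` in the place of `log n`;
infinitely many or finitely many `p` in `S` give a prime according as `V S n` is unbounded or bounded.
-/

namespace Pool.Agent.Results.MP_ce8d0c_nt.ProfiniteMultiples

open Filter Topology MeasureTheory ProbabilityTheory Asymptotics

/-- The product, with multiplicity, of the prime factors of `m` that are larger than `p`. -/
def roughPart (p m : ℕ) : ℕ := (m.primeFactorsList.filter (fun r => p < r)).prod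

/-- The `p`-rough part of the residue in `[0, b ^ p)` of `(u z + m) / v` modulo `b ^ p`; here
`v⁻¹` is the inverse in the ring of residues modulo `b ^ p`. -/
noncomputable def W (b : ℕ) (u v m : ℤ) (z : ℕ → ℕ) (p : ℕ) : ℕ :=
  roughPart p (((u * (z (b ^ p) : ℤ) + m : ℤ) : ZMod (b ^ p)) * ((v : ℤ) : ZMod (b ^ p))⁻¹).val

open Classical in
/-- The number of primes `p ≤ n` in the set `S` for which `W b u v m z p` is prime. -/
noncomputable def M (S : Set ℕ) (b : ℕ) (u v m : ℤ) (z : ℕ → ℕ) (n : ℕ) : ℕ :=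
  ((Finset.range (n + 1)).filter (fun p => p.Prime ∧ p ∈ S ∧ (W b u v m z p).Prime)).card

open Classical in
/-- The sum of `log p / p` over the primes `p ≤ n` in the set `S`. -/
noncomputable def V (S : Set ℕ) (n : ℕ) : ℝ :=
  ∑ p ∈ (Finset.range (n + 1)).filter (fun p => p.Prime ∧ p ∈ S), Real.log p / p

/-- A random profinite integer with the uniform distribution: random residues `z N` modulo all
integers `N ≥ 1`, compatible with each other, each of them uniformly distributed. -/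
structure RandomProfinite {Ω : Type} [MeasurableSpace Ω] (P : Measure Ω) (z : ℕ → Ω → ℕ) : Prop where
  meas : ∀ N, Measurable (z N)
  compat : ∀ N N' : ℕ, 0 < N' → N ∣ N' → ∀ ω, z N' ω % N = z N ω
  unif : ∀ N a : ℕ, a < N → P.real {ω | z N ω = a} = 1 / N

lemma V_eq (S : Set ℕ) (n : ℕ) : V S n = Pool.Agent.TH888.R.VS S n := by
  classical
  unfold V Pool.Agent.TH888.R.VS
  rw [Finset.sum_filter]
  refine Finset.sum_congr rfl fun p _ => ?_
  by_cases h : p.Prime ∧ p ∈ S
  · rw [if_pos h, if_pos ⟨h.2, h.1⟩]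
    rfl
  · rw [if_neg h, if_neg fun h1 => h ⟨h1.2, h1.1⟩]

lemma M_eq (S : Set ℕ) (b : ℕ) (u v m : ℤ) (z : ℕ → ℕ) (n : ℕ) :
    M S b u v m z n =
      Pool.Agent.TH888.R.cS S (fun p => Pool.Agent.R303.BA.rat b u v m p (z (b ^ p))) n := by
  classical
  unfold M Pool.Agent.TH888.R.cS
  rfl

lemma W_wagstaff {b p : ℕ} (hb : 2 ≤ b) (hp : p.Prime) (hodd : Odd p) (hpd : ¬ p ∣ b + 1) :
    W b 1 (b + 1) 0 (fun N => 1 % N) p * (b + 1) = b ^ p + 1 := by
  obtain ⟨N, hN⟩ : (b + 1) ∣ b ^ p + 1 := by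
    have := hodd.nat_add_dvd_pow_add_pow b 1
    simpa using this
  have hbp : 2 ≤ b ^ p := hb.trans (Nat.le_self_pow hp.ne_zero b)
  have hlt : N < b ^ p := by
    by_contra hcon
    have h1 : (b + 1) * b ^ p ≤ (b + 1) * N := Nat.mul_le_mul_left _ (by omega)
    have h2 : 3 * b ^ p ≤ (b + 1) * b ^ p := Nat.mul_le_mul_right _ (by omega)
    omega
  haveI : NeZero (b ^ p) := ⟨by omega⟩
  have hcop : IsCoprime (((b + 1 : ℕ) : ℤ)) ((b ^ p : ℕ) : ℤ) := by
    push_cast
    refine IsCoprime.pow_right ?_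
    exact ⟨1, -1, by ring⟩
  have hN1 : ((N : ℕ) : ZMod (b ^ p)) * (((b + 1 : ℕ) : ℤ) : ZMod (b ^ p)) = 1 := by
    have h1 : (((b + 1) * N : ℕ) : ZMod (b ^ p)) = ((b ^ p + 1 : ℕ) : ZMod (b ^ p)) := by rw [hN]
    rw [Nat.cast_add (b ^ p), ZMod.natCast_self, zero_add, Nat.cast_one, Nat.cast_mul] at h1
    rw [Int.cast_natCast, mul_comm]
    exact h1
  have hres : (((1 * ((1 % b ^ p : ℕ) : ℤ) + 0 : ℤ) : ZMod (b ^ p)) *
      ((((b : ℤ) + 1 : ℤ)) : ZMod (b ^ p))⁻¹).val = N := by
    have e1 : (1 * ((1 % b ^ p : ℕ) : ℤ) + 0 : ℤ) = 1 := by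
      rw [Nat.mod_eq_of_lt (by omega)]; norm_num
    have e2 : ((b : ℤ) + 1) = (((b + 1 : ℕ) : ℤ)) := by push_cast; ring
    rw [e1, e2, Int.cast_one, one_mul]
    have h2 : ((((b + 1 : ℕ) : ℤ)) : ZMod (b ^ p))⁻¹ = ((N : ℕ) : ZMod (b ^ p)) := by
      have h3 := Pool.Agent.R303.BA.mul_inv_int hcop
      calc ((((b + 1 : ℕ) : ℤ)) : ZMod (b ^ p))⁻¹ =
          (((N : ℕ) : ZMod (b ^ p)) * (((b + 1 : ℕ) : ℤ) : ZMod (b ^ p))) *
            ((((b + 1 : ℕ) : ℤ)) : ZMod (b ^ p))⁻¹ := by rw [hN1, one_mul]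
        _ = _ := by rw [mul_assoc, h3, mul_one]
    rw [h2, ZMod.val_natCast, Nat.mod_eq_of_lt hlt]
  have hrough : roughPart p N = N := by
    refine Pool.Agent.R303.BA.rough_geom (a := (b : ℤ)) (c := -1) ?_ (by omega) (by omega) hp ?_ ?_
    · exact isCoprime_one_right.neg_right
    · intro h
      apply hpd
      have e : (b : ℤ) - -1 = ((b + 1 : ℕ) : ℤ) := by push_cast; ring
      rw [e] at h
      exact_mod_cast h
    · rw [hodd.neg_one_pow]
      have h : (((b + 1) * N : ℕ) : ℤ) = ((b ^ p + 1 : ℕ) : ℤ) := by rw [hN]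
      push_cast at h
      linarith
  have hW : W b 1 (b + 1) 0 (fun N => 1 % N) p = N := by
    unfold W
    rw [hres, hrough]
  rw [hW, mul_comm]
  exact hN.symm

/-- The law for random profinite integers, for all bases and all rational affine images
simultaneously; at the integer `1` the multipliers `1 / (b + 1)` give the generalized Wagstaff
numbers. -/
theorem result :
    (∀ b p : ℕ, 2 ≤ b → p.Prime → Odd p → ¬ p ∣ b + 1 →
      W b 1 (b + 1) 0 (fun N => 1 % N) p * (b + 1) = b ^ p + 1) ∧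
    ∀ (Ω : Type) [MeasurableSpace Ω] (P : Measure Ω) [IsProbabilityMeasure P] (z : ℕ → Ω → ℕ),
      RandomProfinite P z →
      (∀ᵐ ω ∂P, ∀ (b : ℕ) (u v m : ℤ), 2 ≤ b → IsCoprime u b → IsCoprime v b →
        IsCoprime (u * (z b ω : ℤ) + m) b →
        (fun n : ℕ => (M Set.univ b u v m (fun N => z N ω) n : ℝ) -
          Real.exp Real.eulerMascheroniConstant / Real.log b * Real.log n) =O[atTop]
        (fun n : ℕ => Real.sqrt (Real.log n) * (Real.log (Real.log n)) ^ ((5 : ℝ) / 2))) ∧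
      (∀ S : Set ℕ, Tendsto (V S) atTop atTop → ∀ᵐ ω ∂P, ∀ (b : ℕ) (u v m : ℤ), 2 ≤ b →
        IsCoprime u b → IsCoprime v b → IsCoprime (u * (z b ω : ℤ) + m) b →
        {p : ℕ | p.Prime ∧ p ∈ S ∧ (W b u v m (fun N => z N ω) p).Prime}.Infinite ∧
        (fun n : ℕ => (M S b u v m (fun N => z N ω) n : ℝ) -
          Real.exp Real.eulerMascheroniConstant / Real.log b * V S n) =O[atTop]
        (fun n : ℕ => Real.sqrt (V S n * Real.log (Real.log n)) *
          (Real.log (V S n * Real.log (Real.log n))) ^ 2)) ∧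
      (∀ S : Set ℕ, ¬ Tendsto (V S) atTop atTop → ∀ᵐ ω ∂P, ∀ (b : ℕ) (u v m : ℤ), 2 ≤ b →
        IsCoprime u b → IsCoprime v b → IsCoprime (u * (z b ω : ℤ) + m) b →
        {p : ℕ | p.Prime ∧ p ∈ S ∧ (W b u v m (fun N => z N ω) p).Prime}.Finite) := by
  have hV : ∀ S, V S = Pool.Agent.TH888.R.VS S := fun S => funext fun n => V_eq S n
  refine ⟨fun b p hb hp hodd hpd => W_wagstaff hb hp hodd hpd, ?_⟩
  intro Ω _ P _ z hz
  have hz' : Pool.Agent.R303.BA.Profinite P z := ⟨hz.meas, hz.compat, hz.unif⟩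
  have hpt : ∀ S : Set ℕ, ∀ᵐ ω ∂P, ∀ (b : ℕ) (u v m : ℤ), 2 ≤ b → IsCoprime u b → IsCoprime v b →
      IsCoprime (u * (z b ω : ℤ) + m) b →
      Pool.Agent.TH888.R.Pt (fun p => Pool.Agent.R303.BA.rat b u v m p (z (b ^ p) ω))
        (Real.exp Real.eulerMascheroniConstant / Real.log b) S := by
    intro S
    rw [ae_all_iff]; intro b
    rw [ae_all_iff]; intro u
    rw [ae_all_iff]; intro v
    rw [ae_all_iff]; intro m
    by_cases hcond : 2 ≤ b ∧ IsCoprime u (b : ℤ) ∧ IsCoprime v (b : ℤ)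
    · obtain ⟨hb, hu, hv⟩ := hcond
      have h := Pool.Agent.R303.BA.pt_perm hb (hz'.full hb)
        (Pool.Agent.R303.BA.perm_rat hb (m := m) hu hv) S
      filter_upwards [h] with ω hω _ _ _ hc
      refine hω ?_
      haveI : NeZero (b ^ 1) := ⟨by positivity⟩
      have h1 : IsUnit (((u * (z (b ^ 1) ω : ℤ) + m : ℤ) : ZMod (b ^ 1)) *
          ((v : ℤ) : ZMod (b ^ 1))⁻¹) := by
        refine IsUnit.mul ?_ ?_
        · refine Pool.Agent.R303.BA.isUnit_intCast (Pool.Agent.R303.BA.coprime_pow ?_ 1)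
          rw [pow_one]
          exact hc
        · have h2 := Pool.Agent.R303.BA.mul_inv_int (Pool.Agent.R303.BA.coprime_pow hv 1)
          exact IsUnit.of_mul_eq_one _ (by rw [mul_comm]; exact h2)
      unfold Pool.Agent.R303.BA.rat
      set y := (((u * (z (b ^ 1) ω : ℤ) + m : ℤ) : ZMod (b ^ 1)) *
          ((v : ℤ) : ZMod (b ^ 1))⁻¹) with hy
      have h3 := (ZMod.isUnit_iff_coprime y.val (b ^ 1)).1 (by rw [ZMod.natCast_zmod_val]; exact h1)
      exact Nat.Coprime.coprime_dvd_right (dvd_pow_self b one_ne_zero) h3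
    · exact Eventually.of_forall fun ω hb hu hv => absurd ⟨hb, hu, hv⟩ hcond
  refine ⟨?_, fun S hS => ?_, fun S hS => ?_⟩
  · filter_upwards [hpt Set.univ] with ω hω b u v m hb hu hv hc
    obtain ⟨B, hB, h⟩ := (hω b u v m hb hu hv hc).law Pool.Agent.TH888.R.VS_univ_tendsto
    simp only [M_eq]
    exact Pool.Agent.TH888.R.bigO_all hB h
  · rw [hV] at hS ⊢
    filter_upwards [hpt S] with ω hω b u v m hb hu hv hc
    refine ⟨(hω b u v m hb hu hv hc).inf hS, ?_⟩
    obtain ⟨B, hB, h⟩ := (hω b u v m hb hu hv hc).law hS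
    simp only [M_eq]
    exact Pool.Agent.TH888.R.bigO_set hB hS h
  · rw [hV] at hS
    filter_upwards [hpt S] with ω hω b u v m hb hu hv hc
    exact (hω b u v m hb hu hv hc).fin hS

end Pool.Agent.Results.MP_ce8d0c_nt.ProfiniteMultiples
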